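import Mathlib

/-!
# MP_0168d2_co: palindromic complexity can drop under a symmetric order condition

The language of words on `0, 1, 2, 3` whose two-letter factors are among `03 10 11 12 13 20 30`.
-/

namespace Pool.Agent.Results.MP_0168d2_co.FourLetters

section Defs

variable {A : Type} [LinearOrder A] (L : Set (List A))

/-- A factorial, extendable language using every letter; `L_n` is its set of words of length `n`. -/
def IsLanguage : Prop :=
  [] ∈ L ∧ (∀ a u, a :: u ∈ L → u ∈ L) ∧ (∀ u b, u ++ [b] ∈ L → u ∈ L) ∧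
    (∀ v ∈ L, (∃ a, a :: v ∈ L) ∧ ∃ b, v ++ [b] ∈ L) ∧ ∀ a, [a] ∈ L

def Bispecial (w : List A) : Prop :=
  w ∈ L ∧ (∃ a a', a ≠ a' ∧ a :: w ∈ L ∧ a' :: w ∈ L) ∧
    ∃ b b', b ≠ b' ∧ w ++ [b] ∈ L ∧ w ++ [b'] ∈ L

/-- The order condition for the order of `A` and its reverse. -/
def SymmetricOrderCondition : Prop :=
  ∀ v, Bispecial L v → ∀ x y x' y', x :: v ++ [y] ∈ L → x' :: v ++ [y'] ∈ L → x ≠ x' → y ≠ y' →
    (x < x' ↔ y' < y)

/-- No bispecial word has a connection for the order of `A` and its reverse. -/
def NoConnection : Prop :=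
  ∀ w, Bispecial L w → ¬ ∃ a a' b b', a ⋖ a' ∧ b' ⋖ b ∧ a :: w ++ [b] ∈ L ∧ a' :: w ++ [b'] ∈ L ∧
    a :: w ++ [b'] ∉ L ∧ a' :: w ++ [b] ∉ L

/-- Palindromic complexity. -/
noncomputable def PC (n : ℕ) : ℕ := {w ∈ L | w.length = n ∧ w.reverse = w}.ncard

end Defs

def R (x y : Fin 4) : Prop := x = 1 ∨ (x = 0 ∧ y = 3) ∨ (x = 2 ∧ y = 0) ∨ (x = 3 ∧ y = 0)

instance : DecidableRel R := fun x y => by unfold R; infer_instance

def L : Set (List (Fin 4)) := {w | w.IsChain R}

theorem mem_L (w : List (Fin 4)) : w ∈ L ↔ w.IsChain R := Iff.rfl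

theorem right_special (l : List (Fin 4)) : ∀ c b b', b ≠ b' → c :: l ++ [b] ∈ L →
    c :: l ++ [b'] ∈ L → c = 1 := by
  induction l with
  | nil =>
    simp only [mem_L, List.cons_append, List.nil_append, List.isChain_cons_cons,
      List.isChain_singleton, and_true]
    decide
  | cons d l ih =>
    intro c b b' hb h h'
    simp only [mem_L, List.cons_append, List.isChain_cons_cons] at h h'
    have := ih d b b' hb h.2 h'.2
    subst this
    exact (by decide : ∀ c, R c 1 → c = 1) c h.1

theorem bisp (w : List (Fin 4)) (h : Bispecial L w) : w = [] := by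
  obtain ⟨-, ⟨a, a', ha, h1, h2⟩, b, b', hb, h3, h4⟩ := h
  rcases w with _ | ⟨c, l⟩
  · rfl
  have := right_special l c b b' hb h3 h4
  subst this
  simp only [mem_L, List.isChain_cons_cons] at h1 h2
  exact absurd (((by decide : ∀ c, R c 1 → c = 1) a h1.1).trans
    ((by decide : ∀ c, R c 1 → c = 1) a' h2.1).symm) ha

theorem ext_right (l : List (Fin 4)) : ∀ c, c :: l ∈ L → ∃ b, c :: l ++ [b] ∈ L := by
  induction l with
  | nil =>
    simp only [mem_L, List.cons_append, List.nil_append, List.isChain_cons_cons,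
      List.isChain_singleton, and_true]
    decide
  | cons d l ih =>
    intro c h
    simp only [mem_L, List.cons_append, List.isChain_cons_cons] at h ⊢
    obtain ⟨b, hb⟩ := ih d h.2
    exact ⟨b, h.1, hb⟩

/-- A language on four letters with the symmetric order condition and no connection that has only
three palindromes of length three. -/
theorem result : ∃ L : Set (List (Fin 4)),
    IsLanguage L ∧ SymmetricOrderCondition L ∧ NoConnection L ∧ PC L 3 = 3 := by
  refine ⟨L, ⟨List.isChain_nil, fun a u h => h.tail, fun u b h => h.left_of_append,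
    fun v hv => ?_, fun a => List.isChain_singleton a⟩, fun v hv => ?_, fun v hv => ?_, ?_⟩
  · rcases v with _ | ⟨c, l⟩
    · exact ⟨⟨0, List.isChain_singleton _⟩, 0, List.isChain_singleton _⟩
    · exact ⟨⟨1, List.isChain_cons_cons.2 ⟨Or.inl rfl, hv⟩⟩, ext_right l c hv⟩
  · rw [bisp v hv]
    simp only [mem_L, List.cons_append, List.nil_append, List.isChain_cons_cons,
      List.isChain_singleton, and_true]
    decide
  · rw [bisp v hv]
    simp only [mem_L, List.cons_append, List.nil_append, List.isChain_cons_cons,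
      List.isChain_singleton, and_true, CovBy]
    decide
  · have : {w ∈ L | w.length = 3 ∧ w.reverse = w} =
        ↑({[0, 3, 0], [1, 1, 1], [3, 0, 3]} : Finset (List (Fin 4))) := by
      ext w
      constructor
      · rintro ⟨h, hl, hr⟩
        obtain ⟨a, b, c, rfl⟩ := List.length_eq_three.1 hl
        simp only [mem_L, List.isChain_cons_cons, List.isChain_singleton, and_true] at h
        rw [Finset.mem_coe]
        revert a b c
        decide
      · intro h
        simp only [Finset.coe_insert, Finset.coe_singleton, Set.mem_insert_iff,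
          Set.mem_singleton_iff] at h
        rcases h with rfl | rfl | rfl <;> exact ⟨(mem_L _).2 (by decide), rfl, rfl⟩
    rw [PC, this, Set.ncard_coe_finset]
    rfl

end Pool.Agent.Results.MP_0168d2_co.FourLetters
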